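import Mathlib

namespace Pool.Agent.Results.MP_9bfa98_an.Tan

open Set Filter Topology Complex

/-- Number of zeros of `f` in `U`, with multiplicity. -/
noncomputable def zeros (f : ℂ → ℂ) (U : Set ℂ) : ℕ :=
  ∑ᶠ z ∈ U, ((meromorphicOrderAt f z).untop₀).toNat

/-- Number of poles of `f` in `U`, with multiplicity. -/
noncomputable def poles (f : ℂ → ℂ) (U : Set ℂ) : ℕ :=
  ∑ᶠ z ∈ U, (-(meromorphicOrderAt f z).untop₀).toNat

theorem tan_im (w : ℂ) (hw : 0 < w.im) : cos w ≠ 0 ∧ 0 < (tan w).im := by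
  have hc : cos w ≠ 0 := by
    intro h
    obtain ⟨k, hk⟩ := Complex.cos_eq_zero_iff.1 h
    have : w.im = 0 := by
      rw [hk]
      have : ((2 * (k:ℂ) + 1) * (Real.pi : ℂ) / 2) = (((2 * (k:ℝ) + 1) * Real.pi / 2 : ℝ) : ℂ) := by
        push_cast; ring
      rw [this, ofReal_im]
    linarith
  refine ⟨hc, ?_⟩
  rw [Complex.tan, div_im]
  have hn : 0 < normSq (cos w) := normSq_pos.2 hc
  rw [← sub_div]
  refine div_pos ?_ hn
  have hs := sin_eq w
  have hco := cos_eq w
  have e1 : (sin w).re = Real.sin w.re * Real.cosh w.im := by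
    rw [hs, ← ofReal_sin, ← ofReal_cos, ← ofReal_sinh, ← ofReal_cosh]; simp only [add_re, mul_re,
      ofReal_re, ofReal_im, I_re, I_im, mul_im]; ring
  have e2 : (sin w).im = Real.cos w.re * Real.sinh w.im := by
    rw [hs, ← ofReal_sin, ← ofReal_cos, ← ofReal_sinh, ← ofReal_cosh]; simp only [add_im, mul_re,
      ofReal_re, ofReal_im, I_re, I_im, mul_im]; ring
  have e3 : (cos w).re = Real.cos w.re * Real.cosh w.im := by
    rw [hco, ← ofReal_sin, ← ofReal_cos, ← ofReal_sinh, ← ofReal_cosh]; simp only [sub_re, mul_re,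
      ofReal_re, ofReal_im, I_re, I_im, mul_im]; ring
  have e4 : (cos w).im = -(Real.sin w.re * Real.sinh w.im) := by
    rw [hco, ← ofReal_sin, ← ofReal_cos, ← ofReal_sinh, ← ofReal_cosh]; simp only [sub_im, mul_re,
      ofReal_re, ofReal_im, I_re, I_im, mul_im]; ring
  rw [e1, e2, e3, e4]
  have h1 : 0 < Real.sinh w.im := Real.sinh_pos_iff.2 hw
  have h2 : 0 < Real.cosh w.im := Real.cosh_pos _
  have h3 := Real.sin_sq_add_cos_sq w.re
  have : Real.cos w.re * Real.sinh w.im * (Real.cos w.re * Real.cosh w.im) -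
      Real.sin w.re * Real.cosh w.im * -(Real.sin w.re * Real.sinh w.im)
      = (Real.sin w.re ^ 2 + Real.cos w.re ^ 2) * (Real.sinh w.im * Real.cosh w.im) := by ring
  rw [this, h3]; positivity

theorem mer (c : ℂ) (z : ℂ) : MeromorphicAt (fun w => tan (c * w)) z := by
  have h1 : MeromorphicAt (fun w => sin (c * w)) z :=
    AnalyticAt.meromorphicAt (by fun_prop)
  have h2 : MeromorphicAt (fun w => cos (c * w)) z :=
    AnalyticAt.meromorphicAt (by fun_prop)
  exact h1.div h2

theorem ev_ne (c : ℂ) (z : ℂ) : ∀ᶠ w in 𝓝[≠] z, cos (c * w) ≠ 0 := by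
  have h : AnalyticOnNhd ℂ (fun w => cos (c * w)) univ := fun w _ => by fun_prop
  rcases (h z (mem_univ _)).eventually_eq_zero_or_eventually_ne_zero with h0 | h0
  · have := h.eqOn_zero_of_preconnected_of_eventuallyEq_zero isPreconnected_univ (mem_univ z) h0
      (mem_univ 0)
    simp at this
  · exact h0

theorem no_zero (c : ℂ) (z : ℂ) :
    ¬ 0 < meromorphicOrderAt ((fun w => tan (c * w)) - fun _ => I) z := by
  intro h
  have h1 := tendsto_zero_of_meromorphicOrderAt_pos h
  have hc : Tendsto (fun w => cos (c * w)) (𝓝[≠] z) (𝓝 (cos (c * z))) :=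
    (Continuous.tendsto (by fun_prop) z).mono_left nhdsWithin_le_nhds
  have h2 := h1.mul hc
  have h3 : Tendsto (fun w => sin (c * w) - I * cos (c * w)) (𝓝[≠] z)
      (𝓝 (sin (c * z) - I * cos (c * z))) :=
    (Continuous.tendsto (by fun_prop) z).mono_left nhdsWithin_le_nhds
  have h4 : sin (c * z) - I * cos (c * z) = 0 * cos (c * z) := by
    refine tendsto_nhds_unique (h3.congr' ?_) h2
    filter_upwards [ev_ne c z] with w hw
    simp only [Pi.sub_apply, Complex.tan]
    field_simp
  have h5 := Complex.sin_sq_add_cos_sq (c * z)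
  have h6 : sin (c * z) = I * cos (c * z) := by linear_combination h4
  rw [h6, mul_pow, I_sq] at h5
  simp at h5

theorem pole (c : ℂ) (z : ℂ) (hz : cos (c * z) = 0) :
    meromorphicOrderAt (fun w => tan (c * w)) z < 0 := by
  by_contra h
  push Not at h
  obtain ⟨L, h1⟩ := tendsto_nhds_of_meromorphicOrderAt_nonneg (mer c z) h
  have hc : Tendsto (fun w => cos (c * w)) (𝓝[≠] z) (𝓝 (cos (c * z))) :=
    (Continuous.tendsto (by fun_prop) z).mono_left nhdsWithin_le_nhds
  have h2 := h1.mul hc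
  have h3 : Tendsto (fun w => sin (c * w)) (𝓝[≠] z) (𝓝 (sin (c * z))) :=
    (Continuous.tendsto (by fun_prop) z).mono_left nhdsWithin_le_nhds
  have h4 : sin (c * z) = L * cos (c * z) := by
    refine tendsto_nhds_unique (h3.congr' ?_) h2
    filter_upwards [ev_ne c z] with w hw
    simp only [Complex.tan]
    field_simp
  have h5 := Complex.sin_sq_add_cos_sq (c * z)
  rw [h4, hz] at h5
  simp at h5

theorem neg_untop {o : WithTop ℤ} (h : o < 0) : o.untop₀ < 0 := by
  cases o with
  | top => simp at h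
  | coe n => simpa using h

theorem fin_poles (f : ℂ → ℂ) (hf : ∀ z, MeromorphicAt f z) (U : Set ℂ)
    (hU : Bornology.IsBounded U) : {z ∈ U | (meromorphicOrderAt f z).untop₀ ≠ 0}.Finite := by
  have hm : MeromorphicOn f (closure U) := fun z _ => hf z
  refine ((MeromorphicOn.divisor f (closure U)).finiteSupport hU.isCompact_closure).subset ?_
  rintro z ⟨hz, h⟩
  rw [Function.mem_support, hm.divisor_apply (subset_closure hz)]
  exact h

theorem poles_tendsto (a b : ℝ) (hab : a < b) (U : Set ℂ) (hU : Bornology.IsBounded U)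
    (hJ : (fun x : ℝ => (x : ℂ)) '' Ioo a b ⊆ U) :
    Tendsto (fun j : ℕ => poles (fun w => tan (((j : ℂ) + 1) * w)) U) atTop atTop := by
  rw [tendsto_atTop]
  intro N
  have hpi := Real.pi_pos
  filter_upwards [eventually_ge_atTop ⌈(N + 2) * Real.pi / (b - a)⌉₊] with j hj
  set c : ℝ := j + 1 with hc
  have hc0 : 0 < c := by positivity
  have hcb : (N + 2) * Real.pi < c * (b - a) := by
    have h1 : (N + 2) * Real.pi / (b - a) ≤ j := (Nat.le_ceil _).trans (by exact_mod_cast hj)
    rw [div_le_iff₀ (by linarith)] at h1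
    nlinarith
  set k0 : ℤ := ⌈a * c / Real.pi⌉ with hk0
  have hk1 : a * c ≤ k0 * Real.pi := by
    have := Int.le_ceil (a * c / Real.pi)
    rwa [div_le_iff₀ hpi] at this
  have hk2 : k0 * Real.pi < a * c + Real.pi := by
    have := Int.ceil_lt_add_one (a * c / Real.pi)
    rw [← hk0, ← sub_lt_iff_lt_add, lt_div_iff₀ hpi] at this
    linarith
  set x : ℕ → ℝ := fun i => (2 * ((k0 : ℝ) + i) + 1) * Real.pi / 2 / c with hx
  have hinj : Function.Injective fun i => (x i : ℂ) := by
    intro i i' h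
    have h : x i = x i' := Complex.ofReal_injective h
    simp only [hx] at h
    field_simp at h
    have : (i : ℝ) = i' := by linarith
    exact_mod_cast this
  set φ : ℂ → ℕ := fun z =>
    (-(meromorphicOrderAt (fun w => tan (((j : ℂ) + 1) * w)) z).untop₀).toNat with hφ
  have hfin : (U ∩ Function.support φ).Finite := by
    refine (fin_poles _ (mer ((j : ℂ) + 1)) U hU).subset ?_
    rintro z ⟨hz, h⟩
    refine ⟨hz, fun h0 => h ?_⟩
    simp [hφ, h0]
  have hpos : ∀ i, 1 ≤ φ (x i) := by
    intro i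
    have : cos (((j : ℂ) + 1) * (x i : ℂ)) = 0 := by
      rw [Complex.cos_eq_zero_iff]
      refine ⟨k0 + i, ?_⟩
      have h1 : ((j : ℂ) + 1) = (c : ℂ) := by rw [hc]; push_cast; ring
      have h2 : (c : ℂ) ≠ 0 := by exact_mod_cast hc0.ne'
      rw [h1, hx]; push_cast; field_simp
    have := neg_untop (pole _ _ this)
    simp only [hφ]
    omega
  have hmem : ∀ i < N, (x i : ℂ) ∈ U := by
    intro i hi
    refine hJ ⟨x i, ⟨?_, ?_⟩, rfl⟩
    · simp only [hx]
      rw [lt_div_iff₀ hc0]
      have : (0:ℝ) ≤ i := Nat.cast_nonneg i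
      nlinarith
    · simp only [hx]
      rw [div_lt_iff₀ hc0]
      have : (i:ℝ) < N := by exact_mod_cast hi
      nlinarith
  show N ≤ ∑ᶠ z ∈ U, φ z
  rw [finsum_mem_eq_sum φ hfin]
  calc N = ∑ z ∈ (Finset.range N).image (fun i => (x i : ℂ)), 1 := by
        simp [Finset.card_image_of_injective _ hinj]
    _ ≤ ∑ z ∈ (Finset.range N).image (fun i => (x i : ℂ)), φ z := by
        refine Finset.sum_le_sum fun z hz => ?_
        obtain ⟨i, _, rfl⟩ := Finset.mem_image.1 hz
        exact hpos i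
    _ ≤ _ := by
        refine Finset.sum_le_sum_of_subset fun z hz => ?_
        obtain ⟨i, hi, rfl⟩ := Finset.mem_image.1 hz
        rw [Set.Finite.mem_toFinset]
        refine ⟨hmem i (Finset.mem_range.1 hi), ?_⟩
        have := hpos i
        rw [Function.mem_support]; omega

theorem result : ∃ (m : ℕ → ℂ → ℂ) (g : ℂ → ℂ),
    (∀ j z, MeromorphicAt (m j) z) ∧
    (∀ j z, 0 < z.im → AnalyticAt ℂ (m j) z ∧ 0 < (m j z).im) ∧
    (∀ j z, z.im < 0 → AnalyticAt ℂ (m j) z ∧ (m j z).im < 0) ∧
    (∀ z, AnalyticAt ℂ g z) ∧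
    (∀ a b : ℝ, a < b →
      Tendsto (fun j => poles (m j) ((fun x : ℝ => (x : ℂ)) '' Ioo a b)) atTop atTop) ∧
    ∀ a b : ℝ, a < b → ∀ U : Set ℂ, IsOpen U → Bornology.IsBounded U →
      (fun x : ℝ => (x : ℂ)) '' Ioo a b ⊆ U →
      (∀ j, {z ∈ U | 0 < meromorphicOrderAt (m j - g) z}.Finite ∧
        {z ∈ U | meromorphicOrderAt (m j) z < 0}.Finite) ∧
      Tendsto (fun j => |(zeros (m j - g) U : ℤ) - (poles (m j) U : ℤ)|) atTop atTop := by
  have han : ∀ (c z : ℂ), cos (c * z) ≠ 0 → AnalyticAt ℂ (fun w => tan (c * w)) z := by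
    intro c z h
    have h1 : AnalyticAt ℂ (fun w => sin (c * w)) z := by fun_prop
    have h2 : AnalyticAt ℂ (fun w => cos (c * w)) z := by fun_prop
    exact h1.div h2 h
  have him : ∀ (j : ℕ) (z : ℂ), (((j : ℂ) + 1) * z).im = ((j : ℝ) + 1) * z.im := by
    intro j z; simp
  refine ⟨fun j w => tan (((j : ℂ) + 1) * w), fun _ => I, fun j z => mer _ z, ?_, ?_,
    fun z => analyticAt_const, ?_, ?_⟩
  · intro j z hz
    have := tan_im (((j : ℂ) + 1) * z) (by rw [him]; positivity)
    exact ⟨han _ _ this.1, this.2⟩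
  · intro j z hz
    have h0 : 0 < (-(((j : ℂ) + 1) * z)).im := by
      rw [neg_im, him]
      have : (0:ℝ) < (j : ℝ) + 1 := by positivity
      nlinarith
    have := tan_im _ h0
    rw [Complex.cos_neg, Complex.tan_neg, neg_im] at this
    exact ⟨han _ _ this.1, by linarith [this.2]⟩
  · intro a b hab
    refine poles_tendsto a b hab _ ?_ subset_rfl
    exact (Complex.isometry_ofReal.lipschitz).isBounded_image (Metric.isBounded_Ioo a b)
  · intro a b hab U _ hU hJ
    refine ⟨fun j => ⟨?_, ?_⟩, ?_⟩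
    · refine Set.finite_empty.subset ?_
      rintro z ⟨_, h⟩
      exact no_zero _ z h
    · refine (fin_poles _ (mer ((j : ℂ) + 1)) U hU).subset ?_
      rintro z ⟨hz, h⟩
      exact ⟨hz, (neg_untop h).ne⟩
    · have hz : ∀ j : ℕ, zeros ((fun w => tan (((j : ℂ) + 1) * w)) - fun _ => I) U = 0 := by
        intro j
        refine finsum_mem_of_eqOn_zero fun z _ => ?_
        have := no_zero ((j : ℂ) + 1) z
        push Not at this
        simp only [Pi.zero_apply]
        revert this
        generalize meromorphicOrderAt ((fun w => tan (((j : ℂ) + 1) * w)) - fun _ => I) z = o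
        intro h
        cases o with
        | top => simp
        | coe n => simpa using h
      simp only [hz]
      have := poles_tendsto a b hab U hU hJ
      simpa [Function.comp_def] using (tendsto_natCast_atTop_atTop (R := ℤ)).comp this

end Pool.Agent.Results.MP_9bfa98_an.Tan
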